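import Pool.Agent.H24.KTH.Geo
import Pool.Agent.H45.KTH.VEC
import Pool.Agent.H78.KTH.PT7

/-!
# KTH row (KK): the direction and the time from the point and the base line
-/

set_option autoImplicit false

namespace Pool.Agent.H24.KTH

open Finset Real
open Pool.Agent.H49.Ent Pool.Agent.H32.Dense

namespace Kk31

lemma exists_mx {d : ℕ} (hd : 0 < d) (x : Fin d → ℤ) : ∃ i, ∀ k, |x k| ≤ |x i| := by
  obtain ⟨i, _, hi⟩ := Finset.exists_max_image (Finset.univ : Finset (Fin d)) (fun k => |x k|)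
    ⟨⟨0, hd⟩, Finset.mem_univ _⟩
  exact ⟨i, fun k => hi k (Finset.mem_univ _)⟩

/-- A coordinate of maximal size. -/
noncomputable def mx {d : ℕ} (hd : 0 < d) (x : Fin d → ℤ) : Fin d := (exists_mx hd x).choose

lemma mx_spec {d : ℕ} (hd : 0 < d) (x : Fin d → ℤ) (k : Fin d) : |x k| ≤ |x (mx hd x)| :=
  (exists_mx hd x).choose_spec k

/-- The dyadic size. -/
def sb (g : ℤ) : ℕ := Nat.size g.natAbs

lemma sb_lt (g : ℤ) : |(g : ℝ)| < 2 ^ sb g := by
  have h := Nat.lt_size_self g.natAbs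
  have h2 : ((g.natAbs : ℕ) : ℝ) < ((2 ^ sb g : ℕ) : ℝ) := by exact_mod_cast h
  rw [Nat.cast_natAbs, Int.cast_abs] at h2
  push_cast at h2
  exact h2

lemma sb_ge {g : ℤ} (hg : g ≠ 0) : (2 : ℝ) ^ sb g ≤ 2 * |(g : ℝ)| := by
  have h0 : 0 < g.natAbs := Int.natAbs_pos.mpr hg
  have h1 : 0 < sb g := Nat.size_pos.mpr h0
  obtain ⟨m, hm⟩ : ∃ m, sb g = m + 1 := ⟨sb g - 1, by omega⟩
  have h2 : 2 ^ m ≤ g.natAbs := Nat.lt_size.mp (by change m < sb g; omega)
  have h3 : ((2 ^ m : ℕ) : ℝ) ≤ ((g.natAbs : ℕ) : ℝ) := by exact_mod_cast h2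
  rw [Nat.cast_natAbs, Int.cast_abs] at h3
  push_cast at h3
  rw [hm, pow_succ]
  linarith

lemma sb_le {g : ℤ} {J : ℕ} (hg : |(g : ℝ)| ≤ 2 * 2 ^ J) : sb g ≤ J + 2 := by
  refine Nat.size_le.mpr ?_
  have h2 : ((g.natAbs : ℕ) : ℝ) < ((2 ^ (J + 2) : ℕ) : ℝ) := by
    rw [Nat.cast_natAbs, Int.cast_abs]
    push_cast
    rw [pow_add]
    have : (0 : ℝ) < 2 ^ J := by positivity
    linarith
  exact_mod_cast h2

/-- The ratios of the coordinates to the largest one, rounded. -/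
noncomputable def ev {d : ℕ} (hd : 0 < d) (x : Fin d → ℤ) : Fin d → ℤ :=
  fun k => ⌊(2 : ℝ) ^ sb (x (mx hd x)) * ((x k : ℝ) / x (mx hd x))⌋

lemma ratio_le {d : ℕ} (hd : 0 < d) (x : Fin d → ℤ) (k : Fin d) :
    |(x k : ℝ) / x (mx hd x)| ≤ 1 := by
  rw [abs_div]
  refine div_le_one_of_le₀ ?_ (abs_nonneg _)
  exact_mod_cast mx_spec hd x k

/-- The vector from its largest coordinate and the ratios. -/
lemma ev_spec {d : ℕ} (hd : 0 < d) (x : Fin d → ℤ) (k : Fin d) :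
    |(x k : ℝ) - (x (mx hd x) : ℝ) * (ev hd x k / 2 ^ sb (x (mx hd x)))| ≤ 1 := by
  have hP : (0 : ℝ) < 2 ^ sb (x (mx hd x)) := by positivity
  rcases eq_or_ne (x (mx hd x)) 0 with h0 | h0
  · have h1 := mx_spec hd x k
    rw [h0, abs_zero] at h1
    have h2 : x k = 0 := abs_nonpos_iff.mp h1
    rw [h0, h2]
    simp
  · have hg : (x (mx hd x) : ℝ) ≠ 0 := by exact_mod_cast h0
    have h1 : |(2 : ℝ) ^ sb (x (mx hd x)) * ((x k : ℝ) / x (mx hd x)) - ev hd x k| ≤ 1 := by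
      unfold ev
      rw [abs_le]
      constructor <;>
      linarith [Int.floor_le ((2 : ℝ) ^ sb (x (mx hd x)) * ((x k : ℝ) / x (mx hd x))),
        Int.lt_floor_add_one ((2 : ℝ) ^ sb (x (mx hd x)) * ((x k : ℝ) / x (mx hd x)))]
    have h2 : (x k : ℝ) - (x (mx hd x) : ℝ) * (ev hd x k / 2 ^ sb (x (mx hd x))) =
        ((x (mx hd x) : ℝ) / 2 ^ sb (x (mx hd x))) *
          ((2 : ℝ) ^ sb (x (mx hd x)) * ((x k : ℝ) / x (mx hd x)) - ev hd x k) := by
      field_simp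
    rw [h2, abs_mul, abs_div, abs_of_pos hP]
    have h3 : |(x (mx hd x) : ℝ)| / 2 ^ sb (x (mx hd x)) ≤ 1 := by
      rw [div_le_one hP]
      exact (sb_lt _).le
    calc |(x (mx hd x) : ℝ)| / 2 ^ sb (x (mx hd x)) *
        |(2 : ℝ) ^ sb (x (mx hd x)) * ((x k : ℝ) / x (mx hd x)) - ev hd x k| ≤ 1 * 1 :=
          mul_le_mul h3 h1 (abs_nonneg _) one_pos.le
      _ = 1 := one_mul 1

lemma ev_abs {d : ℕ} (hd : 0 < d) (x : Fin d → ℤ) (k : Fin d) :
    |(ev hd x k : ℝ) / 2 ^ sb (x (mx hd x))| ≤ 2 := by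
  have hP : (1 : ℝ) ≤ 2 ^ sb (x (mx hd x)) := one_le_pow₀ (by norm_num)
  have hP0 : (0 : ℝ) < 2 ^ sb (x (mx hd x)) := by linarith
  have h0 := ratio_le hd x k
  have h1 : |(2 : ℝ) ^ sb (x (mx hd x)) * ((x k : ℝ) / x (mx hd x))| ≤ 2 ^ sb (x (mx hd x)) := by
    rw [abs_mul, abs_of_pos hP0]
    nlinarith
  have h2 := abs_floor_le ((2 : ℝ) ^ sb (x (mx hd x)) * ((x k : ℝ) / x (mx hd x)))
  rw [abs_div, abs_of_pos hP0, div_le_iff₀ hP0]
  change |(⌊(2 : ℝ) ^ sb (x (mx hd x)) * ((x k : ℝ) / x (mx hd x))⌋ : ℝ)| ≤ _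
  linarith

/-- The same vector from equal data. -/
lemma same_x {d : ℕ} (hd : 0 < d) {x x' : Fin d → ℤ}
    (hb : sb (x (mx hd x)) = sb (x' (mx hd x'))) (hE : ev hd x = ev hd x')
    (hg : |(x (mx hd x) : ℝ) - x' (mx hd x')| ≤ 2) (k : Fin d) :
    |((x k - x' k : ℤ) : ℝ)| ≤ 6 := by
  have h1 := ev_spec hd x k
  have h2 := ev_spec hd x' k
  have h3 := ev_abs hd x k
  rw [← hb, ← hE] at h2
  have h4 : ((x k - x' k : ℤ) : ℝ) =
      ((x k : ℝ) - (x (mx hd x) : ℝ) * (ev hd x k / 2 ^ sb (x (mx hd x)))) -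
      ((x' k : ℝ) - (x' (mx hd x') : ℝ) * (ev hd x k / 2 ^ sb (x (mx hd x)))) +
      ((x (mx hd x) : ℝ) - x' (mx hd x')) * (ev hd x k / 2 ^ sb (x (mx hd x))) := by
    push_cast
    ring
  rw [h4]
  have h5 : |((x (mx hd x) : ℝ) - x' (mx hd x')) * (ev hd x k / 2 ^ sb (x (mx hd x)))| ≤ 2 * 2 := by
    rw [abs_mul]
    exact mul_le_mul hg h3 (abs_nonneg _) (by norm_num)
  have h6 := abs_add_le (((x k : ℝ) - (x (mx hd x) : ℝ) * (ev hd x k / 2 ^ sb (x (mx hd x)))) -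
      ((x' k : ℝ) - (x' (mx hd x') : ℝ) * (ev hd x k / 2 ^ sb (x (mx hd x)))))
      (((x (mx hd x) : ℝ) - x' (mx hd x')) * (ev hd x k / 2 ^ sb (x (mx hd x))))
  have h7 := abs_sub ((x k : ℝ) - (x (mx hd x) : ℝ) * (ev hd x k / 2 ^ sb (x (mx hd x))))
      ((x' k : ℝ) - (x' (mx hd x') : ℝ) * (ev hd x k / 2 ^ sb (x (mx hd x))))
  linarith

/-- The rounded ratios from a point. -/
lemma ev_near {d : ℕ} (hd : 0 < d) {M : ℝ} (hM : 0 < M) (c : ℤ) (x : Fin d → ℤ)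
    (hx : |(x (mx hd x) : ℝ)| ≤ 2 * M) {W : Fin d → ℝ}
    (hW : ∀ k, |W k - (c : ℝ) / M * x k| ≤ 2) (k : Fin d) :
    |(ev hd x k : ℝ) - (if 8 ≤ |W (mx hd x)| then
      2 ^ sb (x (mx hd x)) * (W k / W (mx hd x)) else 0)| ≤ 1 + 20 * (M / max |(c : ℝ)| 1) := by
  have hP0 : (0 : ℝ) < 2 ^ sb (x (mx hd x)) := by positivity
  have hmax : (0 : ℝ) < max |(c : ℝ)| 1 := lt_of_lt_of_le one_pos (le_max_right _ _)
  have h1 : |(2 : ℝ) ^ sb (x (mx hd x)) * ((x k : ℝ) / x (mx hd x)) - ev hd x k| ≤ 1 := by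
    unfold ev
    rw [abs_le]
    constructor <;>
    linarith [Int.floor_le ((2 : ℝ) ^ sb (x (mx hd x)) * ((x k : ℝ) / x (mx hd x))),
      Int.lt_floor_add_one ((2 : ℝ) ^ sb (x (mx hd x)) * ((x k : ℝ) / x (mx hd x)))]
  have key : |(2 : ℝ) ^ sb (x (mx hd x)) * ((x k : ℝ) / x (mx hd x)) -
      (if 8 ≤ |W (mx hd x)| then 2 ^ sb (x (mx hd x)) * (W k / W (mx hd x)) else 0)| ≤
      20 * (M / max |(c : ℝ)| 1) := by
    have hgk : |(x k : ℝ)| ≤ |(x (mx hd x) : ℝ)| := by exact_mod_cast mx_spec hd x k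
    have p1 := pt7_real hM c hgk hx (hW _) (hW k)
    have p2 := pt7_real hM c (le_refl |(x (mx hd x) : ℝ)|) hx (hW _) (hW _)
    rcases eq_or_ne (x (mx hd x)) 0 with h0 | h0
    · have hx0 : x k = 0 := by
        have := mx_spec hd x k
        rw [h0, abs_zero] at this
        exact abs_nonpos_iff.mp this
      have hw : |W (mx hd x)| ≤ 2 := by
        have := hW (mx hd x)
        rw [h0] at this
        simpa using this
      rw [if_neg (by linarith), h0, hx0]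
      simp
      positivity
    · have hg : (x (mx hd x) : ℝ) ≠ 0 := by exact_mod_cast h0
      have hg0 : 0 < |(x (mx hd x) : ℝ)| := abs_pos.mpr hg
      have hPg := sb_ge h0
      split_ifs at p1 p2 ⊢ with h8
      · have e1 : (2 : ℝ) ^ sb (x (mx hd x)) * ((x k : ℝ) / x (mx hd x)) -
            2 ^ sb (x (mx hd x)) * (W k / W (mx hd x)) =
            (2 ^ sb (x (mx hd x)) / (x (mx hd x) : ℝ)) *
              ((x k : ℝ) - (x (mx hd x) : ℝ) * W k / W (mx hd x)) := by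
          field_simp
        rw [e1, abs_mul, abs_div, abs_of_pos hP0]
        have h2 : (2 : ℝ) ^ sb (x (mx hd x)) / |(x (mx hd x) : ℝ)| ≤ 2 := by
          rw [div_le_iff₀ hg0]
          exact hPg
        calc (2 : ℝ) ^ sb (x (mx hd x)) / |(x (mx hd x) : ℝ)| *
            |(x k : ℝ) - (x (mx hd x) : ℝ) * W k / W (mx hd x)| ≤
            2 * (10 * M / max |(c : ℝ)| 1) := mul_le_mul h2 p1 (abs_nonneg _) (by norm_num)
          _ = _ := by ring
      · rw [sub_zero] at p2 ⊢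
        rw [abs_mul, abs_of_pos hP0]
        have h3 := ratio_le hd x k
        calc (2 : ℝ) ^ sb (x (mx hd x)) * |(x k : ℝ) / x (mx hd x)| ≤
            (2 * |(x (mx hd x) : ℝ)|) * 1 := mul_le_mul hPg h3 (abs_nonneg _) (by positivity)
          _ ≤ (2 * (10 * M / max |(c : ℝ)| 1)) * 1 := by linarith
          _ = _ := by ring
  have h2 := abs_sub ((2 : ℝ) ^ sb (x (mx hd x)) * ((x k : ℝ) / x (mx hd x)) -
      (if 8 ≤ |W (mx hd x)| then 2 ^ sb (x (mx hd x)) * (W k / W (mx hd x)) else 0))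
      ((2 : ℝ) ^ sb (x (mx hd x)) * ((x k : ℝ) / x (mx hd x)) - ev hd x k)
  have e2 : (ev hd x k : ℝ) - (if 8 ≤ |W (mx hd x)| then
      2 ^ sb (x (mx hd x)) * (W k / W (mx hd x)) else 0) =
      ((2 : ℝ) ^ sb (x (mx hd x)) * ((x k : ℝ) / x (mx hd x)) -
      (if 8 ≤ |W (mx hd x)| then 2 ^ sb (x (mx hd x)) * (W k / W (mx hd x)) else 0)) -
      ((2 : ℝ) ^ sb (x (mx hd x)) * ((x k : ℝ) / x (mx hd x)) - ev hd x k) := by ring
  rw [e2]
  linarith


section Core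

variable {d : ℕ} {Ω : Type} [Fintype Ω] {ζ : Type} {J : ℕ} {q : Ω → ℝ} {Z : Ω → ζ}
  {w : Ω → Fin d → ℤ} {uw : Ω → Fin d → ℝ} {v : Ω → Fin d → ℤ} {s c : Ω → ℤ} {X : Ω → Fin d → ℤ}

/-- The point seen from the base line at the same time. -/
lemma W_near (h : Pt (2 ^ J) q Z w uw v s c X) {ω : Ω} (hω : 0 < q ω) (k : Fin d) :
    |((X ω k : ℝ) - pos (2 ^ J) (uw ω) (w ω) (s ω + c ω) k) -
      (c ω : ℝ) / (2 ^ J : ℝ) * ((v ω k - w ω k : ℤ) : ℝ)| ≤ 2 := by
  have h1 := h.hX ω hω k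
  have e : ((X ω k : ℝ) - pos (2 ^ J) (uw ω) (w ω) (s ω + c ω) k) -
      (c ω : ℝ) / (2 ^ J : ℝ) * ((v ω k - w ω k : ℤ) : ℝ) =
      (X ω k : ℝ) - (pos (2 ^ J) (uw ω) (w ω) (s ω) k + (c ω : ℝ) / (2 ^ J : ℕ) * v ω k) := by
    unfold pos
    push_cast
    ring
  rw [e]
  exact h1

lemma diff_le (h : Pt (2 ^ J) q Z w uw v s c X) {ω : Ω} (hω : 0 < q ω) (k : Fin d) :
    |((v ω k - w ω k : ℤ) : ℝ)| ≤ 2 * 2 ^ J := by
  have h1 := h.hv ω hω k
  have h2 := h.fam.hv ω hω k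
  have h1' : |(v ω k : ℝ)| ≤ 2 ^ J := by exact_mod_cast h1
  have h2' : |(w ω k : ℝ)| ≤ 2 ^ J := by exact_mod_cast h2
  push_cast
  have := abs_sub (v ω k : ℝ) (w ω k)
  linarith

/-- The window of the time. -/
def hh (J : ℕ) (s c : Ω → ℤ) (ω : Ω) : ℤ := (s ω + c ω) / 2 ^ J

/-- The time in the window. -/
def tt (J : ℕ) (s c : Ω → ℤ) (ω : Ω) : ℕ := ((s ω + c ω) % 2 ^ J).toNat

omit [Fintype Ω] in
lemma tt_eq (J : ℕ) (s c : Ω → ℤ) (ω : Ω) : s ω + c ω = 2 ^ J * hh J s c ω + tt J s c ω := by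
  unfold tt hh
  rw [Int.toNat_of_nonneg (Int.emod_nonneg _ (by positivity))]
  exact (Int.mul_ediv_add_emod _ _).symm

omit [Fintype Ω] in
lemma tt_lt (J : ℕ) (s c : Ω → ℤ) (ω : Ω) : tt J s c ω < 2 ^ J := by
  unfold tt
  have h1 : (s ω + c ω) % 2 ^ J < (2 ^ J : ℤ) := Int.emod_lt_of_pos _ (by positivity)
  have h2 : 0 ≤ (s ω + c ω) % (2 ^ J : ℤ) := Int.emod_nonneg _ (by positivity)
  zify
  rw [Int.toNat_of_nonneg h2]
  exact h1

omit [Fintype Ω] in
lemma tt_det {J : ℕ} {s c : Ω → ℤ} {ω ω' : Ω} (h1 : hh J s c ω = hh J s c ω')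
    (h2 : tt J s c ω = tt J s c ω') : s ω + c ω = s ω' + c ω' := by
  rw [tt_eq, tt_eq J s c ω', h1, h2]

omit [Fintype Ω] in
lemma hh_det {J : ℕ} {s c : Ω → ℤ} {ω ω' : Ω} (h : s ω + c ω = s ω' + c ω') :
    hh J s c ω = hh J s c ω' := by
  unfold hh
  rw [h]

omit [Fintype Ω] in
lemma tt_det' {J : ℕ} {s c : Ω → ℤ} {ω ω' : Ω} (h : s ω + c ω = s ω' + c ω') :
    tt J s c ω = tt J s c ω' := by
  unfold tt
  rw [h]

lemma hh_le (h : Pt (2 ^ J) q Z w uw v s c X) {ω : Ω} (hω : 0 < q ω) :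
    Real.log (1 + |(hh J s c ω : ℝ)| / ((1 : ℕ) : ℝ)) ≤ 2 + sz (2 ^ J) (c ω) := by
  have hP : (0 : ℝ) < 2 ^ J := by positivity
  have hs := h.fam.hτ ω hω
  have hs0 : (0 : ℝ) ≤ s ω := by exact_mod_cast hs.1
  have hs1 : (s ω : ℝ) < 2 ^ J := by exact_mod_cast hs.2
  have e := tt_eq J s c ω
  have e' : (s ω : ℝ) + c ω = 2 ^ J * hh J s c ω + tt J s c ω := by exact_mod_cast e
  have ht0 : (0 : ℝ) ≤ tt J s c ω := Nat.cast_nonneg _
  have ht1 : (tt J s c ω : ℝ) < 2 ^ J := by exact_mod_cast tt_lt J s c ω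
  have h1 : 2 ^ J * |(hh J s c ω : ℝ)| ≤ 2 ^ J * (1 + |(c ω : ℝ)| / 2 ^ J) := by
    have e2 : (2 : ℝ) ^ J * (1 + |(c ω : ℝ)| / 2 ^ J) = 2 ^ J + |(c ω : ℝ)| := by field_simp
    rw [e2]
    have e3 : (2 : ℝ) ^ J * |(hh J s c ω : ℝ)| = |2 ^ J * (hh J s c ω : ℝ)| := by
      rw [abs_mul, abs_of_pos hP]
    rw [e3, abs_le]
    constructor <;> linarith [neg_abs_le (c ω : ℝ), le_abs_self (c ω : ℝ)]
  have h2 : |(hh J s c ω : ℝ)| ≤ 1 + |(c ω : ℝ)| / 2 ^ J := le_of_mul_le_mul_left h1 hP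
  have h3 : (0 : ℝ) ≤ |(c ω : ℝ)| / 2 ^ J := by positivity
  calc Real.log (1 + |(hh J s c ω : ℝ)| / ((1 : ℕ) : ℝ)) ≤
      Real.log (2 * (1 + |(c ω : ℝ)| / 2 ^ J)) := by
        apply Real.log_le_log (by positivity)
        simp only [Nat.cast_one, div_one]
        linarith
    _ = Real.log 2 + Real.log (1 + |(c ω : ℝ)| / 2 ^ J) := Real.log_mul (by norm_num) (by positivity)
    _ ≤ 2 + sz (2 ^ J) (c ω) := by
        have h4 : Real.log 2 ≤ 2 := by linarith [log_two_le_one]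
        have h5 : 0 ≤ Real.log (1 + ((2 ^ J : ℕ) : ℝ) / max |(c ω : ℝ)| 1) := by
          apply Real.log_nonneg
          have : (0 : ℝ) ≤ ((2 ^ J : ℕ) : ℝ) / max |(c ω : ℝ)| 1 := by positivity
          linarith
        unfold sz
        push_cast at h5 ⊢
        linarith

lemma CH_hh (h : Pt (2 ^ J) q Z w uw v s c X) {T : Type} (W : Ω → T) :
    CH q (hh J s c) W ≤ 1.01 * (2 + Ex q (fun ω => sz (2 ^ J) (c ω))) + 6 := by
  have h1 := CH_le_tail one_pos h.fam.hp h.fam.h1 (hh J s c) W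
  have h2 : Ex q (fun ω => Real.log (1 + |(hh J s c ω : ℝ)| / ((1 : ℕ) : ℝ))) ≤
      2 + Ex q (fun ω => sz (2 ^ J) (c ω)) := by
    calc Ex q (fun ω => Real.log (1 + |(hh J s c ω : ℝ)| / ((1 : ℕ) : ℝ))) ≤
        Ex q (fun ω => 2 + sz (2 ^ J) (c ω)) := Ex_mono h.fam.hp fun ω hω => hh_le h hω
      _ = _ := by rw [Ex_add, Ex_const h.fam.h1]
  rw [Nat.cast_one, Real.log_one] at h1
  linarith

/-- The difference of the directions. -/
def xx (v w : Ω → Fin d → ℤ) (ω : Ω) : Fin d → ℤ := fun k => v ω k - w ω k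

/-- Its largest coordinate. -/
noncomputable def gg (hd : 0 < d) (v w : Ω → Fin d → ℤ) (ω : Ω) : ℤ :=
  xx v w ω (mx hd (xx v w ω))

/-- The side information on the shape of the difference. -/
noncomputable def nv (hd : 0 < d) (v w : Ω → Fin d → ℤ) (ω : Ω) : (Fin d → ℤ) × ℕ × Fin d :=
  (ev hd (xx v w ω), sb (gg hd v w ω), mx hd (xx v w ω))

/-- All side information. -/
noncomputable def zz (hd : 0 < d) (J : ℕ) (v w : Ω → Fin d → ℤ) (s c : Ω → ℤ) (Z : Ω → ζ) (ω : Ω) :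
    (ℤ × ((Fin d → ℤ) × ℕ × Fin d)) × (Fin d → ℤ) × ζ :=
  ((hh J s c ω, nv hd v w ω), w ω, Z ω)

/-- Cost of the side information. -/
lemma CH_nv (hd : 0 < d) (h : Pt (2 ^ J) q Z w uw v s c X) :
    CH q (fun ω => (hh J s c ω, nv hd v w ω)) (fun ω => ((s ω + c ω, X ω), w ω, Z ω)) ≤
      Real.log d + Real.log ((J : ℝ) + 3) + d * (18 + 2 * Ex q (fun ω => sz (2 ^ J) (c ω))) := by
  have hp := h.fam.hp
  have h1 := h.fam.h1
  -- the chain
  have c1 := CH_chain hp (hh J s c) (nv hd v w) (fun ω => ((s ω + c ω, X ω), w ω, Z ω))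
  have c2 : CH q (hh J s c) (fun ω => (nv hd v w ω, ((s ω + c ω, X ω), w ω, Z ω))) = 0 := by
    refine CH_eq_zero hp fun ω ω' _ _ e => ?_
    simp only [Prod.mk.injEq] at e
    exact hh_det e.2.1.1
  have c3 := CH_chain hp (fun ω => ev hd (xx v w ω)) (fun ω => (sb (gg hd v w ω), mx hd (xx v w ω)))
    (fun ω => ((s ω + c ω, X ω), w ω, Z ω))
  have c4 := CH_chain hp (fun ω => sb (gg hd v w ω)) (fun ω => mx hd (xx v w ω))
    (fun ω => ((s ω + c ω, X ω), w ω, Z ω))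
  have c5 : CH q (fun ω => mx hd (xx v w ω)) (fun ω => ((s ω + c ω, X ω), w ω, Z ω)) ≤
      Real.log d := by
    have := CH_le_card hp h1 (fun ω => mx hd (xx v w ω)) (fun ω => ((s ω + c ω, X ω), w ω, Z ω))
      (fun _ => Finset.univ) (fun ω _ => Finset.mem_univ _)
    refine this.trans (le_of_eq ?_)
    rw [Ex_const h1, Finset.card_univ, Fintype.card_fin]
  have c6 : CH q (fun ω => sb (gg hd v w ω))
      (fun ω => (mx hd (xx v w ω), ((s ω + c ω, X ω), w ω, Z ω))) ≤ Real.log ((J : ℝ) + 3) := by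
    have := CH_le_card hp h1 (fun ω => sb (gg hd v w ω))
      (fun ω => (mx hd (xx v w ω), ((s ω + c ω, X ω), w ω, Z ω)))
      (fun _ => Finset.range (J + 3)) (fun ω hω => by
        rw [Finset.mem_range]
        have : sb (gg hd v w ω) ≤ J + 2 := sb_le (diff_le h hω _)
        omega)
    refine this.trans (le_of_eq ?_)
    rw [Ex_const h1, Finset.card_range]
    push_cast
    rfl
  have c7 : CH q (fun ω => ev hd (xx v w ω))
      (fun ω => ((sb (gg hd v w ω), mx hd (xx v w ω)), ((s ω + c ω, X ω), w ω, Z ω))) ≤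
      d * (18 + 2 * Ex q (fun ω => sz (2 ^ J) (c ω))) := by
    have hv := vec d Ω _ q
      (fun ω => ((sb (gg hd v w ω), mx hd (xx v w ω)), ((s ω + c ω, X ω), w ω, Z ω)))
      (fun ω => ev hd (xx v w ω))
      (fun ω k => if 8 ≤ |(X ω (mx hd (xx v w ω)) : ℝ) -
          pos (2 ^ J) (uw ω) (w ω) (s ω + c ω) (mx hd (xx v w ω))| then
        2 ^ sb (gg hd v w ω) * (((X ω k : ℝ) - pos (2 ^ J) (uw ω) (w ω) (s ω + c ω) k) /
          ((X ω (mx hd (xx v w ω)) : ℝ) -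
            pos (2 ^ J) (uw ω) (w ω) (s ω + c ω) (mx hd (xx v w ω)))) else 0)
      (fun ω => 1 + 20 * (2 ^ J / max |(c ω : ℝ)| 1)) hp h1
      (fun ω ω' a b e => by
        simp only [Prod.mk.injEq] at e
        obtain ⟨⟨e1, e2⟩, ⟨e3, e4⟩, e5, e6⟩ := e
        have e7 : uw ω = uw ω' := h.fam.hu ω ω' a b (by simp only [e5, e6])
        simp only [e1, e2, e3, e4, e5, e7])
      (fun ω hω k => ev_near hd (by positivity) (c ω) (xx v w ω) (diff_le h hω _)
        (W := fun k => (X ω k : ℝ) - pos (2 ^ J) (uw ω) (w ω) (s ω + c ω) k)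
        (fun k => W_near h hω k) k)
    refine hv.trans (mul_le_mul_of_nonneg_left ?_ (Nat.cast_nonneg d))
    have hl : Ex q (fun ω => Real.log (1 + (1 + 20 * (2 ^ J / max |(c ω : ℝ)| 1)))) ≤
        4 + Ex q (fun ω => sz (2 ^ J) (c ω)) := by
      calc Ex q (fun ω => Real.log (1 + (1 + 20 * (2 ^ J / max |(c ω : ℝ)| 1)))) ≤
          Ex q (fun ω => 4 + sz (2 ^ J) (c ω)) := by
            refine Ex_mono hp fun ω _ => ?_
            have y0 : (0 : ℝ) ≤ 2 ^ J / max |(c ω : ℝ)| 1 := by positivity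
            calc Real.log (1 + (1 + 20 * (2 ^ J / max |(c ω : ℝ)| 1))) ≤
                Real.log (20 * (1 + 2 ^ J / max |(c ω : ℝ)| 1)) := by
                  apply Real.log_le_log (by positivity)
                  linarith
              _ = Real.log 20 + Real.log (1 + 2 ^ J / max |(c ω : ℝ)| 1) :=
                  Real.log_mul (by norm_num) (by positivity)
              _ ≤ 4 + sz (2 ^ J) (c ω) := by
                  have h4 : Real.log 20 ≤ (4 : ℕ) := log_le_of_pow (by norm_num) (by norm_num)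
                  have h5 : 0 ≤ Real.log (1 + |(c ω : ℝ)| / 2 ^ J) := by
                    apply Real.log_nonneg
                    have : (0 : ℝ) ≤ |(c ω : ℝ)| / 2 ^ J := by positivity
                    linarith
                  unfold sz
                  push_cast at h4 ⊢
                  linarith
        _ = _ := by rw [Ex_add, Ex_const h1]
    linarith
  have c8 : CH q (fun ω => (hh J s c ω, nv hd v w ω)) (fun ω => ((s ω + c ω, X ω), w ω, Z ω)) =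
      CH q (nv hd v w) (fun ω => ((s ω + c ω, X ω), w ω, Z ω)) := by rw [c1, c2, add_zero]
  rw [c8]
  change CH q (fun ω => (ev hd (xx v w ω), (sb (gg hd v w ω), mx hd (xx v w ω))))
    (fun ω => ((s ω + c ω, X ω), w ω, Z ω)) ≤ _
  rw [c3, c4]
  linarith

/-- The point from the two directions and the two times. -/
lemma CH_pt (hd : 0 < d) (h : Pt (2 ^ J) q Z w uw v s c X) :
    CH q (fun ω => (s ω + c ω, X ω)) (fun ω => ((v ω, s ω), zz hd J v w s c Z ω)) ≤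
      J * Real.log 2 + 3 * d := by
  have hp := h.fam.hp
  have h1 := h.fam.h1
  have c1 := CH_chain hp X (fun ω => s ω + c ω) (fun ω => ((v ω, s ω), zz hd J v w s c Z ω))
  have c2 : CH q (fun ω => (s ω + c ω, X ω)) (fun ω => ((v ω, s ω), zz hd J v w s c Z ω)) =
      CH q (fun ω => (X ω, s ω + c ω)) (fun ω => ((v ω, s ω), zz hd J v w s c Z ω)) := by
    refine CH_congr hp ?_ ?_ (fun _ _ _ _ e => e) (fun _ _ _ _ e => e) <;>
    · intro ω ω' _ _ e
      simp only [Prod.mk.injEq] at e ⊢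
      tauto
  have c3 : CH q (fun ω => s ω + c ω) (fun ω => ((v ω, s ω), zz hd J v w s c Z ω)) ≤
      J * Real.log 2 := by
    have a1 : CH q (fun ω => s ω + c ω) (fun ω => ((v ω, s ω), zz hd J v w s c Z ω)) ≤
        CH q (tt J s c) (fun ω => ((v ω, s ω), zz hd J v w s c Z ω)) := by
      refine CH_mono_left hp fun ω ω' _ _ e => ?_
      simp only [zz, Prod.mk.injEq] at e
      exact tt_det e.2.2.1.1 e.1
    have a2 := CH_le_card hp h1 (tt J s c) (fun ω => ((v ω, s ω), zz hd J v w s c Z ω))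
      (fun _ => Finset.range (2 ^ J)) (fun ω _ => Finset.mem_range.mpr (tt_lt J s c ω))
    rw [Ex_const h1, Finset.card_range] at a2
    push_cast at a2
    rw [Real.log_pow] at a2
    linarith
  have c4 : CH q X (fun ω => (s ω + c ω, ((v ω, s ω), zz hd J v w s c Z ω))) ≤ 3 * d := by
    have a1 := CH_le_vec hp h1 X (fun ω => (s ω + c ω, ((v ω, s ω), zz hd J v w s c Z ω)))
      (fun _ => 4) (fun ω ω' a b e k => by
        simp only [zz, Prod.mk.injEq] at e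
        obtain ⟨e1, ⟨e2, e3⟩, _, e4, e5⟩ := e
        have e7 : uw ω = uw ω' := h.fam.hu ω ω' a b (by simp only [e4, e5])
        have ec : c ω = c ω' := by omega
        have f1 := h.hX ω a k
        have f2 := h.hX ω' b k
        rw [← e7, ← e4, ← e3, ← ec, ← e2] at f2
        push_cast
        have g := abs_sub ((X ω k : ℝ) - (pos (2 ^ J) (uw ω) (w ω) (s ω) k +
          (c ω : ℝ) / (2 ^ J : ℕ) * v ω k)) ((X ω' k : ℝ) - (pos (2 ^ J) (uw ω) (w ω) (s ω) k +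
          (c ω : ℝ) / (2 ^ J : ℕ) * v ω k))
        have e8 : (X ω k : ℝ) - X ω' k = ((X ω k : ℝ) - (pos (2 ^ J) (uw ω) (w ω) (s ω) k +
          (c ω : ℝ) / (2 ^ J : ℕ) * v ω k)) - ((X ω' k : ℝ) - (pos (2 ^ J) (uw ω) (w ω) (s ω) k +
          (c ω : ℝ) / (2 ^ J : ℕ) * v ω k)) := by ring
        rw [e8]
        linarith)
    rw [Ex_const h1] at a1
    have a2 : Real.log (2 * 4 + 1) ≤ (3 : ℕ) := log_le_of_pow (by norm_num) (by norm_num)
    push_cast at a2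
    have hd0 : (0 : ℝ) ≤ d := Nat.cast_nonneg d
    nlinarith
  rw [c2, c1]
  linarith

/-- The direction from the scalar direction and the side information. -/
lemma CH_v (hd : 0 < d) (h : Pt (2 ^ J) q Z w uw v s c X) {D : Ω → Fin 1 → ℤ}
    (hD : ∀ ω, 0 < q ω → D ω 0 = ⌊(gg hd v w ω : ℝ) / 2⌋) :
    CH q v (fun ω => (D ω, zz hd J v w s c Z ω)) ≤ 3 * d := by
  have hp := h.fam.hp
  have h1 := h.fam.h1
  have a1 := CH_le_vec hp h1 v (fun ω => (D ω, zz hd J v w s c Z ω))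
    (fun _ => 6) (fun ω ω' a b e k => by
      simp only [zz, nv, Prod.mk.injEq] at e
      obtain ⟨e1, ⟨_, e3, e4, _⟩, e6, _⟩ := e
      have e8 : ⌊(gg hd v w ω : ℝ) / 2⌋ = ⌊(gg hd v w ω' : ℝ) / 2⌋ := by
        rw [← hD ω a, ← hD ω' b, e1]
      have e9 := Int.abs_sub_lt_one_of_floor_eq_floor e8
      have e10 : |(gg hd v w ω : ℝ) - gg hd v w ω'| ≤ 2 := by
        rw [abs_le]
        rw [abs_lt] at e9
        constructor <;> linarith [e9.1, e9.2]
      have e11 := same_x hd e4 e3 e10 k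
      have e12 : v ω k - v ω' k = xx v w ω k - xx v w ω' k := by
        unfold xx
        rw [e6]
        ring
      rw [e12]
      exact e11)
  rw [Ex_const h1] at a1
  have a2 : Real.log (2 * 6 + 1) ≤ (3 : ℕ) := log_le_of_pow (by norm_num) (by norm_num)
  push_cast at a2
  have hd0 : (0 : ℝ) ≤ d := Nat.cast_nonneg d
  nlinarith

/-- The scalar position from the point. -/
lemma CH_xf (hd : 0 < d) (h : Pt (2 ^ J) q Z w uw v s c X) {Y : Ω → Fin 1 → ℤ}
    (hY : ∀ ω, 0 < q ω → Y ω 0 = ⌊(c ω : ℝ) / 2 ^ J * (gg hd v w ω : ℝ) / 2⌋) :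
    CH q Y (fun ω => (X ω, (tt J s c ω, zz hd J v w s c Z ω))) ≤ 2 := by
  have hp := h.fam.hp
  have h1 := h.fam.h1
  have a1 := CH_le_vec hp h1 Y (fun ω => (X ω, (tt J s c ω, zz hd J v w s c Z ω)))
    (fun _ => 3) (fun ω ω' a b e k => by
      have hk : k = 0 := Subsingleton.elim _ _
      subst hk
      simp only [zz, nv, Prod.mk.injEq] at e
      obtain ⟨e1, e2, ⟨e3, _, _, e5⟩, e6, e7⟩ := e
      have e8 : uw ω = uw ω' := h.fam.hu ω ω' a b (by simp only [e6, e7])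
      have eT := tt_det e3 e2
      rw [hY ω a, hY ω' b]
      have f1 := W_near h a (mx hd (xx v w ω))
      have f2 := W_near h b (mx hd (xx v w ω'))
      change |_ - (c ω : ℝ) / (2 ^ J : ℝ) * (gg hd v w ω : ℝ)| ≤ 2 at f1
      change |_ - (c ω' : ℝ) / (2 ^ J : ℝ) * (gg hd v w ω' : ℝ)| ≤ 2 at f2
      rw [← e5, ← e8, ← e6, ← eT, ← e1] at f2
      have g1 := floor_sub_le_pair ((c ω : ℝ) / 2 ^ J * (gg hd v w ω : ℝ) / 2)
        ((c ω' : ℝ) / 2 ^ J * (gg hd v w ω' : ℝ) / 2)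
      have g2 : |(c ω : ℝ) / 2 ^ J * (gg hd v w ω : ℝ) / 2 -
        (c ω' : ℝ) / 2 ^ J * (gg hd v w ω' : ℝ) / 2| ≤ 2 := by
        rw [abs_le] at f1 f2 ⊢
        constructor <;> linarith [f1.1, f1.2, f2.1, f2.2]
      linarith)
  rw [Ex_const h1] at a1
  have a2 : Real.log (2 * 3 + 1) ≤ (2 : ℕ) := log_le_of_pow (by norm_num) (by norm_num)
  push_cast at a1 a2
  linarith


/-- The scalar family. -/
noncomputable def fam1 (hd : 0 < d) (J : ℕ) (q : Ω → ℝ) (hq : Pool.STK.IsLaw q)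
    (v w : Ω → Fin d → ℤ) (s c : Ω → ℤ) (Z : Ω → ζ) : Pool.KA.Fam 1 J where
  Ω := Ω
  ζ := (ℤ × ((Fin d → ℤ) × ℕ × Fin d)) × (Fin d → ℤ) × ζ
  fin := inferInstance
  p := q
  u := fun ω _ => ((hh J s c ω : ℝ) - s ω / 2 ^ J) * ((gg hd v w ω : ℝ) / 2 ^ (J + 1))
  d := fun ω _ => if |(gg hd v w ω : ℝ)| ≤ 2 ^ (J + 1) then (gg hd v w ω : ℝ) / 2 ^ (J + 1) else 0
  T := tt J s c
  Z := zz hd J v w s c Z
  isLaw := hq
  dir := fun ω _ => by
    split_ifs with h0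
    · rw [abs_div, abs_of_pos (show (0 : ℝ) < 2 ^ (J + 1) by positivity)]
      exact div_le_one_of_le₀ h0 (by positivity)
    · simp
  tim := tt_lt J s c

/-- The inequality for one family. -/
theorem core (hd : 0 < d) (h : Pt (2 ^ J) q Z w uw v s c X) {ε θ₁ θ : ℝ}
    (hKP : ∀ F : Pool.KA.Fam 1 J, F.Tm (θ₁ * J) → F.V J ≤ ε * J)
    (hA : J * Real.log 2 - θ * J ≤
      CH q (fun ω => s ω + c ω) (fun ω => (s ω, v ω, w ω, Z ω)))
    (hB : Ex q (fun ω => sz (2 ^ J) (c ω)) ≤ θ * J)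
    (hθ : θ * J + (1.01 * (2 + θ * J) + 6) ≤ θ₁ * J) :
    CH q (fun ω => (v ω, s ω)) (fun ω => ((s ω + c ω, X ω), w ω, Z ω)) ≤
      CH q s (fun ω => (v ω, w ω, Z ω)) + (ε * J + θ * J + 1.01 * (2 + θ * J) + 2 * d * (θ * J) +
        (8 + 24 * d + Real.log d) + Real.log ((J : ℝ) + 3)) := by
  have hp := h.fam.hp
  have h1 := h.fam.h1
  have hlaw : Pool.STK.IsLaw q := ⟨hp, h1⟩
  set F := fam1 hd J q hlaw v w s c Z with hF
  have hg : ∀ ω, 0 < q ω → |(gg hd v w ω : ℝ)| ≤ 2 ^ (J + 1) := fun ω hω => by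
    rw [pow_succ, mul_comm]
    exact diff_le h hω _
  -- the time given the scalar line
  have t1 : J * Real.log 2 - (θ * J + (1.01 * (2 + θ * J) + 6)) ≤
      CH q (tt J s c) (fun ω => (F.l ω, zz hd J v w s c Z ω)) := by
    have a1 := CH_le_add hp (fun ω => s ω + c ω) (hh J s c) (fun ω => (s ω, v ω, w ω, Z ω))
    have a2 := CH_hh h (fun ω => (s ω, v ω, w ω, Z ω))
    have a3 : CH q (fun ω => s ω + c ω) (fun ω => (hh J s c ω, (s ω, v ω, w ω, Z ω))) ≤
        CH q (tt J s c) (fun ω => (hh J s c ω, (s ω, v ω, w ω, Z ω))) := by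
      refine CH_mono_left hp fun ω ω' _ _ e => ?_
      simp only [Prod.mk.injEq] at e
      exact tt_det e.2.1 e.1
    have a4 : CH q (tt J s c) (fun ω => (hh J s c ω, (s ω, v ω, w ω, Z ω))) ≤
        CH q (tt J s c) (fun ω => (F.l ω, zz hd J v w s c Z ω)) := by
      refine CH_mono_cond hp fun ω ω' _ _ e => ?_
      simp only [Prod.mk.injEq] at e
      obtain ⟨e1, e2, e3, e4, e5⟩ := e
      have ex : xx v w ω = xx v w ω' := by
        unfold xx
        rw [e3, e4]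
      have eg : gg hd v w ω = gg hd v w ω' := by
        unfold gg
        rw [ex]
      have eu : F.u ω = F.u ω' := by
        funext i
        change ((hh J s c ω : ℝ) - s ω / 2 ^ J) * ((gg hd v w ω : ℝ) / 2 ^ (J + 1)) =
          ((hh J s c ω' : ℝ) - s ω' / 2 ^ J) * ((gg hd v w ω' : ℝ) / 2 ^ (J + 1))
        rw [e1, e2, eg]
      have ed : F.d ω = F.d ω' := by
        funext i
        change (if |(gg hd v w ω : ℝ)| ≤ 2 ^ (J + 1) then (gg hd v w ω : ℝ) / 2 ^ (J + 1) else 0) =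
          (if |(gg hd v w ω' : ℝ)| ≤ 2 ^ (J + 1) then (gg hd v w ω' : ℝ) / 2 ^ (J + 1) else 0)
        rw [eg]
      simp only [Pool.KA.Fam.l, zz, nv, e1, e4, e5, ex, eg, eu, ed]
    nlinarith
  have hTm : F.Tm (θ₁ * J) := by
    change (J : ℝ) * Real.log 2 - θ₁ * J ≤ CH q (tt J s c) (fun ω => (F.l ω, zz hd J v w s c Z ω))
    linarith
  have hV := hKP F hTm
  have hV' : CH q (F.D J) (zz hd J v w s c Z) -
      CH q (F.X J) (fun ω => (tt J s c ω, zz hd J v w s c Z ω)) ≤ ε * J := by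
    have : F.V J = CH q (F.D J) (zz hd J v w s c Z) -
      CH q (F.X J) (fun ω => (tt J s c ω, zz hd J v w s c Z ω)) -
        ((1 : ℕ) : ℝ) * (((J : ℝ) - J) * Real.log 2) := rfl
    rw [this] at hV
    simpa using hV
  -- the scalar direction and position
  have hD : ∀ ω, 0 < q ω → F.D J ω 0 = ⌊(gg hd v w ω : ℝ) / 2⌋ := by
    intro ω hω
    have : F.D J ω 0 = ⌊(2 : ℝ) ^ J * (if |(gg hd v w ω : ℝ)| ≤ 2 ^ (J + 1) then
        (gg hd v w ω : ℝ) / 2 ^ (J + 1) else 0)⌋ := rfl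
    rw [this, if_pos (hg ω hω)]
    congr 1
    rw [pow_succ]
    field_simp
  have hX : ∀ ω, 0 < q ω → F.X J ω 0 = ⌊(c ω : ℝ) / 2 ^ J * (gg hd v w ω : ℝ) / 2⌋ := by
    intro ω hω
    have : F.X J ω 0 = ⌊(2 : ℝ) ^ J *
        (((hh J s c ω : ℝ) - s ω / 2 ^ J) * ((gg hd v w ω : ℝ) / 2 ^ (J + 1)) +
          (tt J s c ω : ℝ) / 2 ^ J * (if |(gg hd v w ω : ℝ)| ≤ 2 ^ (J + 1) then
        (gg hd v w ω : ℝ) / 2 ^ (J + 1) else 0))⌋ := rfl
    rw [this, if_pos (hg ω hω)]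
    congr 1
    have e' : (s ω : ℝ) + c ω = 2 ^ J * hh J s c ω + tt J s c ω := by
      exact_mod_cast tt_eq J s c ω
    have e2 : (c ω : ℝ) = 2 ^ J * hh J s c ω + tt J s c ω - s ω := by linarith
    rw [e2, pow_succ]
    field_simp
    ring
  have b1 := CH_v (Z := Z) hd h hD
  have b2 := CH_xf hd h hX
  have b3 := CH_pt hd h
  have b4 := CH_nv hd h
  -- the point given the side information
  have d1 : J * Real.log 2 - (θ * J + (1.01 * (2 + θ * J) + 6)) +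
      CH q (F.X J) (fun ω => (tt J s c ω, zz hd J v w s c Z ω)) - 2 ≤
      CH q (fun ω => (s ω + c ω, X ω)) (zz hd J v w s c Z) := by
    have a1 := CH_chain hp X (fun ω => s ω + c ω) (zz hd J v w s c Z)
    have a2 : CH q (fun ω => (s ω + c ω, X ω)) (zz hd J v w s c Z) =
        CH q (fun ω => (X ω, s ω + c ω)) (zz hd J v w s c Z) := by
      refine CH_congr hp ?_ ?_ (fun _ _ _ _ e => e) (fun _ _ _ _ e => e) <;>
      · intro ω ω' _ _ e
        simp only [Prod.mk.injEq] at e ⊢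
        tauto
    have a3 : CH q (tt J s c) (zz hd J v w s c Z) ≤
        CH q (fun ω => s ω + c ω) (zz hd J v w s c Z) := by
      refine CH_mono_left hp fun ω ω' _ _ e => ?_
      simp only [Prod.mk.injEq] at e
      exact tt_det' e.1
    have a4 : CH q (tt J s c) (fun ω => (F.l ω, zz hd J v w s c Z ω)) ≤
        CH q (tt J s c) (zz hd J v w s c Z) := by
      refine CH_mono_cond hp fun ω ω' _ _ e => ?_
      exact (Prod.ext_iff.mp e).2
    have a5 : CH q X (fun ω => (tt J s c ω, zz hd J v w s c Z ω)) ≤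
        CH q X (fun ω => (s ω + c ω, zz hd J v w s c Z ω)) := by
      refine CH_mono_cond hp fun ω ω' _ _ e => ?_
      have e1 := Prod.ext_iff.mp e
      refine Prod.ext ?_ e1.2
      have e2 := e1.2
      simp only [zz, Prod.mk.injEq] at e2
      exact tt_det e2.1.1 e1.1
    have a6 := CH_le_add hp (F.X J) X (fun ω => (tt J s c ω, zz hd J v w s c Z ω))
    rw [a2, a1]
    linarith
  -- Bayes
  have g1 := CH_bayes hp (fun ω => (v ω, s ω)) (fun ω => (s ω + c ω, X ω)) (zz hd J v w s c Z)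
  have g2 : CH q (fun ω => (v ω, s ω)) (zz hd J v w s c Z) ≤
      CH q (F.D J) (zz hd J v w s c Z) + 3 * d + CH q s (fun ω => (v ω, w ω, Z ω)) := by
    have a1 := CH_chain hp s v (zz hd J v w s c Z)
    have a2 : CH q (fun ω => (v ω, s ω)) (zz hd J v w s c Z) =
        CH q (fun ω => (s ω, v ω)) (zz hd J v w s c Z) := by
      refine CH_congr hp ?_ ?_ (fun _ _ _ _ e => e) (fun _ _ _ _ e => e) <;>
      · intro ω ω' _ _ e
        simp only [Prod.mk.injEq] at e ⊢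
        tauto
    have a3 : CH q s (fun ω => (v ω, zz hd J v w s c Z ω)) ≤ CH q s (fun ω => (v ω, w ω, Z ω)) := by
      refine CH_mono_cond hp fun ω ω' _ _ e => ?_
      simp only [zz, Prod.mk.injEq] at e ⊢
      tauto
    have a4 := CH_le_add hp v (F.D J) (zz hd J v w s c Z)
    rw [a2, a1]
    linarith
  have g3 := CH_le_add hp (fun ω => (v ω, s ω)) (fun ω => (hh J s c ω, nv hd v w ω))
    (fun ω => ((s ω + c ω, X ω), w ω, Z ω))
  have g4 : CH q (fun ω => (v ω, s ω))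
      (fun ω => ((hh J s c ω, nv hd v w ω), ((s ω + c ω, X ω), w ω, Z ω))) =
      CH q (fun ω => (v ω, s ω)) (fun ω => ((s ω + c ω, X ω), zz hd J v w s c Z ω)) := by
    refine CH_congr hp ?_ ?_ ?_ ?_ <;>
    · intro ω ω' _ _ e
      simp only [zz, Prod.mk.injEq] at e ⊢
      tauto
  rw [g4] at g3
  have hd0 : (0 : ℝ) ≤ d := Nat.cast_nonneg d
  have g5 : (d : ℝ) * (18 + 2 * Ex q (fun ω => sz (2 ^ J) (c ω))) ≤ d * (18 + 2 * (θ * J)) :=
    mul_le_mul_of_nonneg_left (by linarith) hd0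
  linarith

end Core

end Kk31

open Kk31

theorem kk : KKStmt := by
  intro hK d ε hε
  obtain ⟨θ₁, hθ₁, J₁, hJ₁⟩ := hK (ε / 4) (by linarith)
  have hd0 : (0 : ℝ) ≤ d := Nat.cast_nonneg d
  set θ : ℝ := min (θ₁ / 5) (ε / (16 * (d + 2))) with hθ
  have hθ0 : 0 < θ := lt_min (by positivity) (by positivity)
  have hθa : θ ≤ θ₁ / 5 := min_le_left _ _
  have hθb : θ * (16 * (d + 2)) ≤ ε := by
    have := min_le_right (θ₁ / 5) (ε / (16 * ((d : ℝ) + 2)))
    rw [← hθ, le_div_iff₀ (by positivity)] at this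
    exact this
  obtain ⟨J₂, hJ₂⟩ := exists_nat_gt (50 / θ₁)
  obtain ⟨J₃, hJ₃⟩ := exists_nat_gt
    ((12 + 24 * d + Real.log d + (3 * (ε / 16) - Real.log (ε / 16))) / (ε / 16))
  refine ⟨θ, hθ0, max J₁ (max J₂ J₃), ?_⟩
  intro J hJ Ω _ ζ q Z w uw v s c X h hA hB
  have hJa : J₁ ≤ J := le_trans (le_max_left _ _) hJ
  have hJb : (J₂ : ℝ) ≤ J := by
    exact_mod_cast le_trans (le_trans (le_max_left _ _) (le_max_right _ _)) hJ
  have hJc : (J₃ : ℝ) ≤ J := by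
    exact_mod_cast le_trans (le_trans (le_max_right _ _) (le_max_right _ _)) hJ
  have hJ0 : (0 : ℝ) ≤ J := Nat.cast_nonneg J
  have hp := h.fam.hp
  rcases Nat.eq_zero_or_pos d with hd | hd
  · have h1 : CH q (fun ω => (v ω, s ω)) (fun ω => ((s ω + c ω, X ω), w ω, Z ω)) ≤
        CH q s (fun ω => (v ω, w ω, Z ω)) := by
      subst hd
      calc CH q (fun ω => (v ω, s ω)) (fun ω => ((s ω + c ω, X ω), w ω, Z ω)) ≤
          CH q s (fun ω => ((s ω + c ω, X ω), w ω, Z ω)) :=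
            CH_mono_left hp fun ω ω' _ _ e => by
              simp only [Prod.mk.injEq] at e ⊢
              exact ⟨Subsingleton.elim _ _, e.1⟩
        _ ≤ CH q s (fun ω => (v ω, w ω, Z ω)) :=
            CH_mono_cond hp fun ω ω' _ _ e => by
              simp only [Prod.mk.injEq] at e ⊢
              exact ⟨Subsingleton.elim _ _, e.2⟩
    have : 0 ≤ ε * J := by positivity
    linarith
  · have c1 : 50 ≤ θ₁ * J := by
      rw [div_lt_iff₀ hθ₁] at hJ₂
      nlinarith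
    have c2 : θ * J ≤ θ₁ * J / 5 := by nlinarith
    have hc := core hd h (hJ₁ J hJa) hA hB (by linarith)
    have c3 : 12 + 24 * d + Real.log d + (3 * (ε / 16) - Real.log (ε / 16)) ≤ (ε / 16) * J := by
      rw [div_lt_iff₀ (by positivity)] at hJ₃
      nlinarith
    have c4 : Real.log ((J : ℝ) + 3) ≤ ε / 16 * (J + 3) - Real.log (ε / 16) := by
      have := Real.log_le_sub_one_of_pos (show 0 < ε / 16 * ((J : ℝ) + 3) by positivity)
      rw [Real.log_mul (by positivity) (by positivity)] at this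
      linarith
    have c5 : θ * J * (16 * (d + 2)) ≤ ε * J := by nlinarith
    have c6 : 0 ≤ θ * J * d := by positivity
    have c7 : 0 ≤ θ * J := by positivity
    refine hc.trans ?_
    nlinarith

end Pool.Agent.H24.KTH
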