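import Pool.Agent.H24.KTH.Geo

/-!
# KTH row (PT5): the direction from the two points
-/

set_option autoImplicit false

namespace Pool.Agent.H24.KTH

open Finset Real
open Pool.Agent.H49.Ent Pool.Agent.H32.Dense

namespace Pt31

/-- From a bound for `(c / M) (a - b)` to a bound for `a - b`, general constant. -/
lemma gapK {K : ℝ} (hK : 2 ≤ K) {M : ℕ} (hM : 0 < M) {c : ℝ} {a b : ℤ} (ha : |a| ≤ M)
    (hb : |b| ≤ M) (h : |c / M * (a - b)| ≤ K) :
    |((a - b : ℤ) : ℝ)| ≤ K * (M / max |c| 1) := by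
  have hM0 : (0 : ℝ) < M := by exact_mod_cast hM
  have ha' : |(a : ℝ)| ≤ M := by exact_mod_cast ha
  have hb' : |(b : ℝ)| ≤ M := by exact_mod_cast hb
  push_cast
  rcases le_total |c| 1 with h1 | h1
  · rw [max_eq_right h1, div_one]
    calc |(a : ℝ) - b| ≤ |(a : ℝ)| + |(b : ℝ)| := abs_sub _ _
      _ ≤ 2 * M := by linarith
      _ ≤ K * M := by nlinarith
  · rw [max_eq_left h1]
    have hc : 0 < |c| := by linarith
    rw [abs_mul, abs_div, Nat.abs_cast] at h
    have : K * ((M : ℝ) / |c|) = K / (|c| / M) := by field_simp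
    rw [this, le_div_iff₀ (by positivity)]
    linarith

lemma log_gap10 {y : ℝ} (hy : 0 ≤ y) : Real.log (2 * (5 * y) + 1) ≤ 3 + Real.log (1 + y) := by
  calc Real.log (2 * (5 * y) + 1) ≤ Real.log (10 * (1 + y)) := by
        apply Real.log_le_log (by positivity)
        linarith
    _ = Real.log 10 + Real.log (1 + y) := Real.log_mul (by norm_num) (by positivity)
    _ ≤ _ := by
        have : Real.log 10 ≤ (3 : ℕ) := log_le_of_pow (by norm_num) (by norm_num)
        push_cast at this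
        linarith

lemma log_le_sz {M : ℕ} (x : ℝ) : Real.log (1 + M / max |x| 1) ≤ sz M x := by
  unfold sz
  have : 0 ≤ Real.log (1 + |x| / M) := Real.log_nonneg (by
    have : 0 ≤ |x| / M := by positivity
    linarith)
  linarith

lemma sz_nonneg {M : ℕ} (x : ℝ) : 0 ≤ sz M x := by
  refine le_trans (Real.log_nonneg ?_) (log_le_sz x)
  have : (0 : ℝ) ≤ M / max |x| 1 := by positivity
  linarith

end Pt31

open Pt31

theorem pt5 : PT5Stmt := by
  intro d
  refine ⟨3 * d, fun Ω _ ζ M q Z w uw v s c X h => ?_⟩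
  have hfam := h.fam
  have h1 := CH_le_vec hfam.hp hfam.h1 v
    (fun ω => ((s ω + c ω, X ω), (s ω, rd (pos M (uw ω) (w ω) (s ω))), Z ω))
    (fun ω => 5 * (M / max |(c ω : ℝ)| 1))
    (fun ω ω' a b e k => by
      simp only [Prod.mk.injEq] at e
      obtain ⟨⟨e1, e2⟩, ⟨e3, e4⟩, _⟩ := e
      have ec : c ω = c ω' := by omega
      refine gapK (by norm_num) hfam.hM (h.hv ω a k) (h.hv ω' b k) ?_
      have f1 := h.hX ω a k
      have f2 := h.hX ω' b k
      have f3 := rd_close e4 k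
      rw [← ec, ← e2] at f2
      have : (c ω : ℝ) / M * ((v ω k : ℝ) - v ω' k) =
          ((X ω k : ℝ) - (pos M (uw ω') (w ω') (s ω') k + (c ω : ℝ) / M * v ω' k)) -
          ((X ω k : ℝ) - (pos M (uw ω) (w ω) (s ω) k + (c ω : ℝ) / M * v ω k)) -
          (pos M (uw ω) (w ω) (s ω) k - pos M (uw ω') (w ω') (s ω') k) := by ring
      rw [this]
      refine (abs_sub _ _).trans ?_
      have g1 := abs_sub ((X ω k : ℝ) - (pos M (uw ω') (w ω') (s ω') k + (c ω : ℝ) / M * v ω' k))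
        ((X ω k : ℝ) - (pos M (uw ω) (w ω) (s ω) k + (c ω : ℝ) / M * v ω k))
      linarith)
  refine h1.trans ?_
  have hd : (0 : ℝ) ≤ d := Nat.cast_nonneg d
  have h2 : Ex q (fun ω => Real.log (2 * (5 * (M / max |(c ω : ℝ)| 1)) + 1)) ≤
      3 + Ex q (fun ω => sz M (c ω)) := by
    calc Ex q (fun ω => Real.log (2 * (5 * (M / max |(c ω : ℝ)| 1)) + 1)) ≤
        Ex q (fun ω => 3 + sz M (c ω)) := Ex_mono hfam.hp fun ω _ =>
          (log_gap10 (by positivity)).trans (by linarith [log_le_sz (M := M) (c ω : ℝ)])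
      _ = 3 + Ex q (fun ω => sz M (c ω)) := by rw [Ex_add, Ex_const hfam.h1]
  have h3 : 0 ≤ Ex q (fun ω => sz M (c ω)) := Ex_nonneg hfam.hp fun ω _ => sz_nonneg _
  calc (d : ℝ) * Ex q (fun ω => Real.log (2 * (5 * (M / max |(c ω : ℝ)| 1)) + 1)) ≤
      d * (3 + Ex q (fun ω => sz M (c ω))) := mul_le_mul_of_nonneg_left h2 hd
    _ ≤ 3 * d * (Ex q (fun ω => sz M (c ω)) + 1) := by
      have := mul_nonneg hd h3
      linarith

end Pool.Agent.H24.KTH
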